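import Pool.Agent.H51.KoszulD

namespace Pool.Agent.Results.MP_2e24ef_al.Counter

open Pool.Agent.H51.KoszulDefs

/-- Over every field there is a Koszul algebra `T(V)/(R)` with Betti numbers
`1, 6, 15, 22, 18, 6, 0, 0, ...`: cohomological dimension `n = 5` and
`(n - 1) b₁² = 144 < 150 = 2 n b₂`. -/
theorem result (k : Type) [Field k] :
    ∃ (d : ℕ) (R : Submodule k (Fin d → Fin d → k)) (b : ℕ → ℕ) (n : ℕ),
      IsKoszul k d R ∧
      (∀ i, Module.rank k (ExtK k d R i) = (b i : Cardinal)) ∧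
      1 ≤ n ∧ b n ≠ 0 ∧ (∀ i, n < i → b i = 0) ∧
      (n - 1) * b 1 ^ 2 < 2 * n * b 2 ∧
      d = 6 ∧ n = 5 ∧ b 0 = 1 ∧ b 1 = 6 ∧ b 2 = 15 ∧ b 3 = 22 ∧ b 4 = 18 ∧ b 5 = 6 := by
  refine ⟨6, Pool.Agent.H51.KoszulD.R0 k, fun i => [1, 6, 15, 22, 18, 6].getD i 0, 5,
    Pool.Agent.H51.KoszulD.koszul k, Pool.Agent.H51.KoszulD.betti k, by norm_num, by decide,
    fun i hi => ?_, by decide, rfl, rfl, rfl, rfl, rfl, rfl, rfl, rfl⟩
  show [1, 6, 15, 22, 18, 6].getD i 0 = 0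
  rw [List.getD_eq_getElem?_getD, List.getElem?_eq_none (by simp; omega)]
  rfl

end Pool.Agent.Results.MP_2e24ef_al.Counter
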